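import Pool.Agent.Q163.WD.Crit
import Pool.Agent.Q163.WD.Pos
import Pool.Agent.Q163.WD.OddErg

set_option autoImplicit false

/-!
# Ergodic theorems along the critical points of Chamberland's map

For odd `n` let `c n` be the critical point of Chamberland's map `f` in `(n, n + 1/2)`. The pointwise
ergodic theorem holds along the indices of the critical points of a given fate (attracted by `A₁` or
`A₂`, merging with a given orbit, tending to infinity), for every measure preserving transformation and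
every integrable function. If one `c n` is not of known fate, then the return times of a generic point of
an ergodic system to a set of positive measure have a positive proportion of such indices.
-/

namespace Pool.Agent.Results.MP_a247fa_nt.ErgodicAverages

open Filter Topology MeasureTheory

/-- Chamberland's map. -/
noncomputable def f (x : ℝ) : ℝ := x + 1 / 4 - (2 * x + 1) / 4 * Real.cos (Real.pi * x)

/-- The `3x+1` map. -/
def T (n : ℕ) : ℕ := if n % 2 = 0 then n / 2 else (3 * n + 1) / 2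

/-- Points of attracting cycles contained in `(0,∞)`. -/
def AttractingPoint (y : ℝ) : Prop :=
  0 < y ∧ 0 < Function.minimalPeriod f y ∧ |deriv (f^[Function.minimalPeriod f y]) y| < 1

/-- The orbit of `x` converges to the cycle of `y`. -/
def Attracts (y x : ℝ) : Prop :=
  ∃ j : ℕ, Tendsto (fun k : ℕ => f^[k * Function.minimalPeriod f y + j] x) atTop (𝓝 y)

/-- `x` is attracted by the cycle `A₁ = {1, 2}` or by the cycle `A₂ = {a, f a}`, or its orbit ends in a
point of `[1.02, 1.05]` of period two. -/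
def KnownFate (a x : ℝ) : Prop :=
  Attracts 1 x ∨ Attracts a x ∨ ∃ K, f^[K] x ∈ Set.Icc (1.02 : ℝ) 1.05 ∧ f^[K + 2] x = f^[K] x

/-- The orbits of `x` and `y` merge: they have, from some times on, the same integral parts. -/
def Merge (x y : ℝ) : Prop := ∃ i j : ℕ, ∀ k : ℕ, ⌊f^[k + i] x⌋ = ⌊f^[k + j] y⌋

/-- The set `S` of odd positive integers is closed under merging of the orbits of the `c n`. -/
def Closed (c : ℕ → ℝ) (S : Set ℕ) : Prop :=
  ∀ n m : ℕ, n % 2 = 1 → m % 2 = 1 → Merge (c n) (c m) → (n ∈ S ↔ m ∈ S)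

/-- The number of the `n` in `[1, N]` such that the `n`-th odd number `2 n - 1` is in `S`. -/
noncomputable def number (S : Set ℕ) (N : ℕ) : ℕ := {n : ℕ | 1 ≤ n ∧ n ≤ N ∧ 2 * n - 1 ∈ S}.ncard

/-- The sum of `w n` over the `n` in `[1, N]` such that `2 n - 1` is in `S`. -/
noncomputable def sumAlong (S : Set ℕ) (N : ℕ) (w : ℕ → ℝ) : ℝ :=
  ∑ n ∈ Finset.Icc 1 N, S.indicator (fun _ => (1 : ℝ)) (2 * n - 1) * w n

/-! ### proofs -/

open Pool.Agent.Q163.WD.Crit (Fol Ext mem_ext ext_inv)
open Pool.Agent.Q163.WD.OddErg (oind)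

theorem ext_P {S : Set ℕ} : MP_edb5be_nt.PointwiseErgodicTheorem.Invariant (Ext S) := fun x => ext_inv S x

theorem cast_odd {n : ℕ} (hn : 1 ≤ n) : (1 : ℤ) * (2 * (n : ℤ) - 1) = ((2 * n - 1 : ℕ) : ℤ) := by omega

theorem oind_eq {c : ℕ → ℝ} (hc : ∀ n : ℕ, n % 2 = 1 → Fol n (c n)) {S : Set ℕ} (hS : Closed c S)
    {n : ℕ} (hn : 1 ≤ n) : oind 1 (Ext S) n = S.indicator (fun _ => (1 : ℝ)) (2 * n - 1) := by
  unfold oind
  rw [cast_odd hn]
  have h := mem_ext hc hS (n := 2 * n - 1) (by omega)
  by_cases h1 : 2 * n - 1 ∈ S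
  · rw [Set.indicator_of_mem h1, Set.indicator_of_mem (h.2 h1)]
  · rw [Set.indicator_of_notMem h1, Set.indicator_of_notMem (fun h2 => h1 (h.1 h2))]

theorem sum_eq {c : ℕ → ℝ} (hc : ∀ n : ℕ, n % 2 = 1 → Fol n (c n)) {S : Set ℕ} (hS : Closed c S)
    (N : ℕ) (w : ℕ → ℝ) : ∑ n ∈ Finset.Icc 1 N, oind 1 (Ext S) n * w n = sumAlong S N w := by
  unfold sumAlong
  apply Finset.sum_congr rfl
  intro n hn
  rw [Finset.mem_Icc] at hn
  rw [oind_eq hc hS hn.1]

theorem num_eq {c : ℕ → ℝ} (hc : ∀ n : ℕ, n % 2 = 1 → Fol n (c n)) {S : Set ℕ} (hS : Closed c S)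
    (N : ℕ) : ∑ n ∈ Finset.Icc 1 N, oind 1 (Ext S) n = number S N := by
  classical
  have h := sum_eq hc hS N (fun _ => 1)
  simp only [mul_one] at h
  rw [h]
  unfold sumAlong number
  have e3 : {n : ℕ | 1 ≤ n ∧ n ≤ N ∧ 2 * n - 1 ∈ S} =
      ((Finset.Icc 1 N).filter (fun n : ℕ => 2 * n - 1 ∈ S) : Finset ℕ) := by
    ext n
    simp only [Set.mem_ofPred_eq, Finset.coe_filter, Finset.mem_Icc, and_assoc]
  rw [e3, Set.ncard_coe_finset, Finset.card_filter]
  push_cast
  apply Finset.sum_congr rfl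
  intro n _
  rw [mul_one, Set.indicator_apply]

/-- **The theorem.** There are `a` and `c` such that: `a` is the point of `A₂` in `[1.19, 1.196]`; for
odd `n` the critical point `c n` is the only one of `f` in `(n, n + 1/2)`; the following sets of odd `n`
are closed under merging: those with `c n` of known fate, those whose `c n` has an orbit which merges with
the orbit of `c m`, those with `f^k (c n) → ∞`; and
(1) THE POINTWISE ERGODIC THEOREM. For every measure preserving transformation `R` of a probability space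
and every integrable function `g`, for almost every point `x`: (a) for `N ≥ N₀(ε, x)`, for ALL sets `S`
closed under merging, the sum of `g (R ^ n x)` over the `n ≤ N` with `2 n - 1 ∈ S` is `δ` times the sum
over all `n ≤ N`, up to `ε N`; here `δ` is the density of `S` among the odd integers (it exists, and is
positive if `S` contains an odd integer); (b) the averages of `g (R ^ n x)` over the `n ≤ N` with
`2 n - 1 ∈ S` converge to the conditional expectation of `g`, for ALL `S` closed under merging which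
contain an odd integer;
(2) all `c n` are of known fate if and only if the `3x+1` conjecture is true;
(3) for EVERY ergodic transformation `R`, every set `A` of positive measure and every `ψ ≥ 0` with limit
`0`: all `c n` are of known fate if and only if, with positive probability in `x`, there are infinitely
many `N` such that at most `ψ(N) N` of the return times `n ≤ N` (with `R ^ n x ∈ A`) are such that
`c (2 n - 1)` is not of known fate. -/
theorem result : ∃ (a : ℝ) (c : ℕ → ℝ),
    (a ∈ Set.Icc (1.19 : ℝ) 1.196 ∧ f (f a) = a ∧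
      ∀ y, y = 1 ∨ y = 2 ∨ y = a ∨ y = f a → AttractingPoint y) ∧
    (∀ n : ℕ, n % 2 = 1 → (n : ℝ) < c n ∧ c n < n + 1 / 2 ∧ deriv f (c n) = 0 ∧
      ∀ x : ℝ, (n : ℝ) < x → x < n + 1 / 2 → deriv f x = 0 → x = c n) ∧
    (Closed c {n | KnownFate a (c n)} ∧ (∀ m : ℕ, Closed c {n | Merge (c n) (c m)}) ∧
      Closed c {n | Tendsto (fun k : ℕ => f^[k] (c n)) atTop atTop} ∧
      ∀ S : Set ℕ, Closed c S → Closed c Sᶜ) ∧
    -- (1) the pointwise ergodic theorem
    (∀ (X : Type) [MeasurableSpace X] (μ : Measure X) [IsProbabilityMeasure μ] (R : X → X)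
      (g : X → ℝ), MeasurePreserving R μ μ → Integrable g μ → ∀ᵐ x ∂μ,
      (∀ ε : ℝ, 0 < ε → ∃ N₀ : ℕ, ∀ S : Set ℕ, Closed c S → ∃ δ : ℝ,
        Tendsto (fun N : ℕ => (number S N : ℝ) / N) atTop (𝓝 δ) ∧ ((∃ n ∈ S, n % 2 = 1) → 0 < δ) ∧
        ∀ N : ℕ, N₀ ≤ N →
          |sumAlong S N (fun n => g (R^[n] x)) - δ * ∑ n ∈ Finset.Icc 1 N, g (R^[n] x)| ≤ ε * N) ∧
      (∀ S : Set ℕ, Closed c S → (∃ n ∈ S, n % 2 = 1) →
        Tendsto (fun N : ℕ => sumAlong S N (fun n => g (R^[n] x)) / number S N) atTop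
          (𝓝 ((μ[g | MeasurableSpace.invariants R]) x)))) ∧
    -- (2) the critical points of known fate
    ((∀ n : ℕ, n % 2 = 1 → KnownFate a (c n)) ↔ ∀ n : ℕ, 1 ≤ n → ∃ k : ℕ, T^[k] n = 1) ∧
    -- (3) return times
    (∀ (X : Type) [MeasurableSpace X] (μ : Measure X) [IsProbabilityMeasure μ] (R : X → X) (A : Set X),
      Ergodic R μ → MeasurableSet A → 0 < μ A → ∀ ψ : ℕ → ℝ, (∀ N, 0 ≤ ψ N) → Tendsto ψ atTop (𝓝 0) →
      ((∀ n : ℕ, n % 2 = 1 → KnownFate a (c n)) ↔
        ¬ ∀ᵐ x ∂μ, ¬ ∃ᶠ N : ℕ in atTop,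
          ({n : ℕ | 1 ≤ n ∧ n ≤ N ∧ ¬ KnownFate a (c (2 * n - 1)) ∧ R^[n] x ∈ A}.ncard : ℝ) ≤
            ψ N * N)) := by
  obtain ⟨a, c, h1, h2, hfol, hk, -⟩ := Pool.Agent.Q163.WD.Crit.exists_crit
  have hcl : Closed c {n | KnownFate a (c n)} := Pool.Agent.Q163.WD.Crit.closed_known hfol hk
  have hne : ∀ S : Set ℕ, Closed c S → (∃ n ∈ S, n % 2 = 1) → ∃ y ∈ Ext S, 0 < 1 * y := by
    rintro S hS ⟨n, hn, hodd⟩
    exact ⟨(n : ℤ), (mem_ext hfol hS hodd).2 hn, by omega⟩
  have hnum : ∀ S : Set ℕ, Closed c S → ∀ δ : ℝ,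
      MP_edb5be_nt.PointwiseErgodicTheorem.HasDensity 1 (Ext S) δ →
      Tendsto (fun N : ℕ => (number S N : ℝ) / N) atTop (𝓝 δ) := by
    intro S hS δ hδ
    have h := Pool.Agent.Q163.WD.OddErg.odd_number (Or.inl rfl) ext_P hδ
    refine h.congr fun N => ?_
    rw [num_eq hfol hS]
  refine ⟨a, c, h1, h2, ⟨hcl, fun m => Pool.Agent.Q163.WD.Crit.closed_merge c m,
    Pool.Agent.Q163.WD.Crit.closed_infinity c, fun S hS => Pool.Agent.Q163.WD.Crit.closed_compl hS⟩,
    ?_, ?_, ?_⟩
  · intro X _ μ _ R g hR hg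
    filter_upwards [Pool.Agent.Q163.WD.OddErg.odd_unif (Or.inl rfl) μ R g hR hg,
      Pool.Agent.Q163.WD.OddErg.odd_averages (s := 1) (Or.inl rfl) μ R g hR hg] with x hx1 hx2
    constructor
    · intro ε hε
      obtain ⟨N₀, h⟩ := hx1 ε hε
      refine ⟨N₀, fun S hS => ?_⟩
      obtain ⟨δ, hδ, h3⟩ := h (Ext S) ext_P
      refine ⟨δ, hnum S hS δ hδ, fun hn => ?_, fun N hN => ?_⟩
      · obtain ⟨δ', hδ0, hδ'⟩ := Pool.Agent.Q163.WD.Pos.dens_pos (s := 1) (Or.inl rfl) (S := Ext S)
          (fun x => ext_inv S x) (hne S hS hn)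
        rwa [tendsto_nhds_unique hδ hδ']
      · rw [← sum_eq hfol hS]
        exact h3 N hN
    · intro S hS hn
      obtain ⟨δ, hδ0, hδ⟩ := Pool.Agent.Q163.WD.Pos.dens_pos (s := 1) (Or.inl rfl) (S := Ext S)
          (fun x => ext_inv S x) (hne S hS hn)
      have h := hx2 (Ext S) ext_P δ hδ hδ0
      refine h.congr fun N => ?_
      rw [sum_eq hfol hS, num_eq hfol hS]
  · constructor
    · intro h n hn
      induction n using Nat.strong_induction_on with
      | _ n ih =>
        rcases Nat.mod_two_eq_zero_or_one n with he | ho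
        · obtain ⟨k, hk'⟩ := ih (n / 2) (by omega) (by omega)
          refine ⟨k + 1, ?_⟩
          rw [Function.iterate_succ_apply]
          have : T n = n / 2 := by unfold T; rw [if_pos he]
          rw [this]; exact hk'
        · exact (hk n ho).1 (h n ho)
    · intro h n hn
      exact (hk n hn).2 (h n (by omega))
  · intro X _ μ _ R A hR hA hpos ψ hψ0 hψ
    constructor
    · intro hall hcon
      have hfalse : ∀ᵐ x ∂μ, False := by
        filter_upwards [hcon] with x hx
        apply hx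
        apply Filter.Frequently.of_forall
        intro N
        have e : {n : ℕ | 1 ≤ n ∧ n ≤ N ∧ ¬ KnownFate a (c (2 * n - 1)) ∧ R^[n] x ∈ A} = ∅ := by
          rw [Set.eq_empty_iff_forall_notMem]
          rintro n ⟨g1, -, g2, -⟩
          exact g2 (hall (2 * n - 1) (by omega))
        rw [e, Set.ncard_empty]
        have := hψ0 N
        push_cast
        positivity
      rw [eventually_false_iff_eq_bot, ae_eq_bot] at hfalse
      exact IsProbabilityMeasure.ne_zero μ hfalse
    · intro h n hn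
      by_contra hcon
      apply h
      have hcl' : Closed c {n | ¬ KnownFate a (c n)} := Pool.Agent.Q163.WD.Crit.closed_compl hcl
      obtain ⟨δ, hδ0, hδ⟩ := Pool.Agent.Q163.WD.Pos.dens_pos (s := 1) (Or.inl rfl)
          (S := Ext {n | ¬ KnownFate a (c n)}) (fun x => ext_inv _ x) (hne _ hcl' ⟨n, hcon, hn⟩)
      have h3 := Pool.Agent.Q163.WD.OddErg.odd_rare (s := 1) (Or.inl rfl) μ R A hR hA hpos hψ
        (S := Ext {n | ¬ KnownFate a (c n)}) ext_P hδ hδ0
      filter_upwards [h3] with x hx hx'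
      refine hx (hx'.mono fun N hN => ?_)
      refine le_trans (le_of_eq ?_) hN
      congr 2
      ext m
      simp only [Set.mem_ofPred_eq]
      refine and_congr_right fun hm => and_congr_right fun _ => and_congr_left fun _ => ?_
      rw [cast_odd hm, mem_ext hfol hcl' (by omega)]
      rfl

end Pool.Agent.Results.MP_a247fa_nt.ErgodicAverages
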