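import Pool.Agent.Q163.WD.Crit
import Pool.Agent.Q163.WD.Pos
import Pool.Agent.Q163.WD.OddAF

set_option autoImplicit false

/-!
# The critical points of Chamberland's map and the arithmetic of their indices

For odd `n` let `c n` be the critical point of Chamberland's map `f` in `(n, n + 1/2)`. The fate of the
orbit of `c n` (attracted by `A₁` or `A₂`, merging with a given orbit, tending to infinity) is independent
of the values of additive functions of `n` and of the `k` largest prime factors of `n`. If one `c n` is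
not of known fate, then in every test set of positive proportion a positive proportion of the `c n` is not
of known fate.
-/

namespace Pool.Agent.Results.MP_a247fa_nt.PrimeFactors

open Filter Topology
open scoped Classical

/-- Chamberland's map. -/
noncomputable def f (x : ℝ) : ℝ := x + 1 / 4 - (2 * x + 1) / 4 * Real.cos (Real.pi * x)

/-- The `3x+1` map. -/
def T (n : ℕ) : ℕ := if n % 2 = 0 then n / 2 else (3 * n + 1) / 2

/-- Points of attracting cycles contained in `(0,∞)`. -/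
def AttractingPoint (y : ℝ) : Prop :=
  0 < y ∧ 0 < Function.minimalPeriod f y ∧ |deriv (f^[Function.minimalPeriod f y]) y| < 1

/-- The orbit of `x` converges to the cycle of `y`. -/
def Attracts (y x : ℝ) : Prop :=
  ∃ j : ℕ, Tendsto (fun k : ℕ => f^[k * Function.minimalPeriod f y + j] x) atTop (𝓝 y)

/-- `x` is attracted by the cycle `A₁ = {1, 2}` or by the cycle `A₂ = {a, f a}`, or its orbit ends in a
point of `[1.02, 1.05]` of period two. -/
def KnownFate (a x : ℝ) : Prop :=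
  Attracts 1 x ∨ Attracts a x ∨ ∃ K, f^[K] x ∈ Set.Icc (1.02 : ℝ) 1.05 ∧ f^[K + 2] x = f^[K] x

/-- The orbits of `x` and `y` merge: they have, from some times on, the same integral parts. -/
def Merge (x y : ℝ) : Prop := ∃ i j : ℕ, ∀ k : ℕ, ⌊f^[k + i] x⌋ = ⌊f^[k + j] y⌋

/-- The set `S` of odd positive integers is closed under merging of the orbits of the `c n`. -/
def Closed (c : ℕ → ℝ) (S : Set ℕ) : Prop :=
  ∀ n m : ℕ, n % 2 = 1 → m % 2 = 1 → Merge (c n) (c m) → (n ∈ S ↔ m ∈ S)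

/-- `exp (2 π i θ)` -/
noncomputable def e (θ : ℝ) : ℂ := Complex.exp (2 * Real.pi * θ * Complex.I)

/-- A multiplicative function with values in the closed unit disc. -/
def Multiplicative (g : ℕ → ℂ) : Prop :=
  (∀ n, ‖g n‖ ≤ 1) ∧ ∀ m n : ℕ, Nat.Coprime m n → g (m * n) = g m * g n

/-- A real additive function. -/
def Additive (h : ℕ → ℝ) : Prop := ∀ m n : ℕ, Nat.Coprime m n → h (m * n) = h m + h n

/-- The integers `n` with `h i n ∈ I i` for all `i`. -/
def Box {d : ℕ} (h : Fin d → ℕ → ℝ) (I : Fin d → Set ℝ) : Set ℕ := {n | ∀ i, h i n ∈ I i}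

/-- The `k` largest prime factors of `n`, with multiplicity, in decreasing order (all prime factors, if `n` has
fewer than `k`). -/
def top (k n : ℕ) : List ℕ := n.primeFactorsList.reverse.take k

/-- The odd integers `n ≤ N`. -/
def odds (N : ℕ) : Finset ℕ := (Finset.Icc 1 N).filter (fun n => n % 2 = 1)

/-- The number of the odd `n ≤ N` in `E` and in `S`. -/
noncomputable def Count (N : ℕ) (S E : Set ℕ) : ℕ := {n : ℕ | n % 2 = 1 ∧ n ≤ N ∧ n ∈ E ∧ n ∈ S}.ncard

/-! ### proofs -/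

open Pool.Agent.Q163.WD.Crit (Fol Ext mem_ext ext_inv)
open Pool.Agent.Q163.WD.OddAF (oddCount ci odd_box odd_top count_lower)

theorem ext_A {S : Set ℕ} : MP_d02c56_nt.AdditiveFunctions.Invariant (Ext S) :=
  fun x => Pool.Agent.Q163.WD.Pos.inv_C (S := Ext S) (fun x => ext_inv S x) x

theorem count_eq {c : ℕ → ℝ} (hc : ∀ n : ℕ, n % 2 = 1 → Fol n (c n)) {S : Set ℕ} (hS : Closed c S)
    (N : ℕ) (E : Set ℕ) : oddCount 1 N (Ext S) E = Count N S E := by
  unfold oddCount Count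
  congr 1
  ext n
  simp only [Set.mem_ofPred_eq, one_mul]
  refine and_congr_right fun h => ?_
  rw [mem_ext hc hS h]

theorem count_univ (N : ℕ) (E : Set ℕ) : oddCount 1 N Set.univ E = Count N Set.univ E := by
  unfold oddCount Count
  simp only [Set.mem_univ]

theorem ci_eq {c : ℕ → ℝ} (hc : ∀ n : ℕ, n % 2 = 1 → Fol n (c n)) {S : Set ℕ} (hS : Closed c S)
    (δ : ℝ) {N n : ℕ} (hn : n ∈ odds N) :
    ci 1 (Ext S) δ n = ((S.indicator (fun _ => (1 : ℝ)) n - δ : ℝ) : ℂ) := by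
  unfold odds at hn
  rw [Finset.mem_filter] at hn
  unfold ci
  rw [one_mul]
  have h := mem_ext hc hS hn.2
  by_cases h1 : n ∈ S
  · rw [Set.indicator_of_mem h1, Set.indicator_of_mem (h.2 h1)]
  · rw [Set.indicator_of_notMem h1, Set.indicator_of_notMem (fun h2 => h1 (h.1 h2))]

/-- **The theorem.** There are `a` and `c` such that: `a` is the point of `A₂` in `[1.19, 1.196]`; for
odd `n` the critical point `c n` is the only one of `f` in `(n, n + 1/2)`; the following sets of odd `n`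
are closed under merging: those with `c n` of known fate, those whose `c n` has an orbit which merges with
the orbit of `c m`, those with `f^k (c n) → ∞`; and
(1) BOXES. For `N ≥ N₀(d, ε)`, for ALL `S` closed under merging there is `δ` (`δ > 0` if `S` contains an
odd integer) such that for all real additive functions `h 1, ..., h d` and intervals `I 1, ..., I d` the
number of the odd `n ≤ N` in `S` with all `h i n ∈ I i` is `δ` times the number of all odd `n ≤ N` with
all `h i n ∈ I i`, up to `ε N`; also with weights `g(n) e(α n)`, `g` multiplicative in the unit disc;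
(2) LARGE PRIME FACTORS. The same for the sets of odd `n` given by any condition on the list of the `k`
largest prime factors of `n`, also with weights `g(n) e(α n) Φ(list)`;
(3) all `c n` are of known fate if and only if the `3x+1` conjecture is true;
(4) if for one sequence of boxes, (5) or of conditions on the `k` largest prime factors, satisfied by at
least `κ N` of the odd `n ≤ N`, for infinitely many `N` only `o(N)` of these `n` are such that `c n` is
not of known fate, then all `c n` are of known fate. -/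
theorem result : ∃ (a : ℝ) (c : ℕ → ℝ),
    (a ∈ Set.Icc (1.19 : ℝ) 1.196 ∧ f (f a) = a ∧
      ∀ y, y = 1 ∨ y = 2 ∨ y = a ∨ y = f a → AttractingPoint y) ∧
    (∀ n : ℕ, n % 2 = 1 → (n : ℝ) < c n ∧ c n < n + 1 / 2 ∧ deriv f (c n) = 0 ∧
      ∀ x : ℝ, (n : ℝ) < x → x < n + 1 / 2 → deriv f x = 0 → x = c n) ∧
    (Closed c {n | KnownFate a (c n)} ∧ (∀ m : ℕ, Closed c {n | Merge (c n) (c m)}) ∧
      Closed c {n | Tendsto (fun k : ℕ => f^[k] (c n)) atTop atTop} ∧
      ∀ S : Set ℕ, Closed c S → Closed c Sᶜ) ∧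
    -- (1) boxes
    (∀ (d : ℕ) (ε : ℝ), 0 < ε → ∃ N₀ : ℕ, ∀ S : Set ℕ, Closed c S → ∃ δ : ℝ,
      ((∃ n ∈ S, n % 2 = 1) → 0 < δ) ∧ ∀ N : ℕ, N₀ ≤ N → ∀ h : Fin d → ℕ → ℝ, (∀ i, Additive (h i)) →
        ∀ I : Fin d → Set ℝ, (∀ i, (I i).OrdConnected) →
        (∀ g : ℕ → ℂ, Multiplicative g → ∀ α : ℝ,
          ‖∑ n ∈ odds N, if n ∈ Box h I then
            ((S.indicator (fun _ => (1 : ℝ)) n - δ : ℝ) : ℂ) * g n * e (α * n) else 0‖ ≤ ε * N) ∧
        |(Count N S (Box h I) : ℝ) - δ * Count N Set.univ (Box h I)| ≤ ε * N) ∧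
    -- (2) large prime factors
    (∀ (k : ℕ) (ε : ℝ), 0 < ε → ∃ N₀ : ℕ, ∀ S : Set ℕ, Closed c S → ∃ δ : ℝ,
      ((∃ n ∈ S, n % 2 = 1) → 0 < δ) ∧ ∀ N : ℕ, N₀ ≤ N →
        (∀ g : ℕ → ℂ, Multiplicative g → ∀ α : ℝ, ∀ Φ : List ℕ → ℂ, (∀ l, ‖Φ l‖ ≤ 1) →
          ‖∑ n ∈ odds N, ((S.indicator (fun _ => (1 : ℝ)) n - δ : ℝ) : ℂ) * g n * e (α * n) *
            Φ (top k n)‖ ≤ ε * N) ∧
        ∀ A : Set (List ℕ), |(Count N S {n | top k n ∈ A} : ℝ) -
          δ * Count N Set.univ {n | top k n ∈ A}| ≤ ε * N) ∧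
    -- (3) the critical points of known fate
    ((∀ n : ℕ, n % 2 = 1 → KnownFate a (c n)) ↔ ∀ n : ℕ, 1 ≤ n → ∃ k : ℕ, T^[k] n = 1) ∧
    -- (4), (5) sufficient conditions
    (∀ (d : ℕ) (h : ℕ → Fin d → ℕ → ℝ), (∀ N i, Additive (h N i)) →
      ∀ I : ℕ → Fin d → Set ℝ, (∀ N i, (I N i).OrdConnected) →
      ∀ (κ : ℝ) (ψ : ℕ → ℝ), 0 < κ → Tendsto ψ atTop (𝓝 0) →
      (∃ᶠ N : ℕ in atTop, κ * N ≤ Count N Set.univ (Box (h N) (I N)) ∧
        (Count N {n | ¬ KnownFate a (c n)} (Box (h N) (I N)) : ℝ) ≤ ψ N * N) →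
      ∀ n : ℕ, n % 2 = 1 → KnownFate a (c n)) ∧
    (∀ (k : ℕ) (A : ℕ → Set (List ℕ)) (κ : ℝ) (ψ : ℕ → ℝ), 0 < κ → Tendsto ψ atTop (𝓝 0) →
      (∃ᶠ N : ℕ in atTop, κ * N ≤ Count N Set.univ {n | top k n ∈ A N} ∧
        (Count N {n | ¬ KnownFate a (c n)} {n | top k n ∈ A N} : ℝ) ≤ ψ N * N) →
      ∀ n : ℕ, n % 2 = 1 → KnownFate a (c n)) := by
  obtain ⟨a, c, h1, h2, hfol, hk, -⟩ := Pool.Agent.Q163.WD.Crit.exists_crit
  have hcl : Closed c {n | KnownFate a (c n)} := Pool.Agent.Q163.WD.Crit.closed_known hfol hk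
  have hcl' : Closed c {n | ¬ KnownFate a (c n)} := Pool.Agent.Q163.WD.Crit.closed_compl hcl
  have hpos : ∀ S : Set ℕ, Closed c S → ∀ δ : ℝ,
      MP_d02c56_nt.AdditiveFunctions.HasDensity 1 (Ext S) δ → (∃ n ∈ S, n % 2 = 1) → 0 < δ := by
    rintro S hS δ hδ ⟨n, hn, hodd⟩
    obtain ⟨δ', hδ0, hδ'⟩ := Pool.Agent.Q163.WD.Pos.dens_pos (s := 1) (Or.inl rfl) (S := Ext S)
        (fun x => ext_inv S x) ⟨(n : ℤ), (mem_ext hfol hS hodd).2 hn, by omega⟩
    rwa [tendsto_nhds_unique hδ hδ']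
  refine ⟨a, c, h1, h2, ⟨hcl, fun m => Pool.Agent.Q163.WD.Crit.closed_merge c m,
    Pool.Agent.Q163.WD.Crit.closed_infinity c, fun S hS => Pool.Agent.Q163.WD.Crit.closed_compl hS⟩,
    ?_, ?_, ?_, ?_, ?_⟩
  · intro d ε hε
    obtain ⟨N₀, h⟩ := odd_box (s := 1) (Or.inl rfl) d hε
    refine ⟨N₀, fun S hS => ?_⟩
    obtain ⟨δ, hδ, h3⟩ := h (Ext S) ext_A
    refine ⟨δ, hpos S hS δ hδ, fun N hN h' hh' I hI => ?_⟩
    obtain ⟨g1, g2⟩ := h3 N hN h' hh' I hI
    constructor
    · intro g hg α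
      refine le_trans (le_of_eq ?_) (g1 g hg α)
      congr 1
      apply Finset.sum_congr rfl
      intro n hn
      by_cases g3 : n ∈ Box h' I
      · rw [if_pos g3, if_pos (show n ∈ MP_d02c56_nt.AdditiveFunctions.Box h' I from g3),
          ci_eq hfol hS δ hn]
        rfl
      · rw [if_neg g3, if_neg (show n ∉ MP_d02c56_nt.AdditiveFunctions.Box h' I from g3)]
    · rw [count_eq hfol hS, count_univ] at g2
      exact g2
  · intro k ε hε
    obtain ⟨N₀, h⟩ := odd_top (s := 1) (Or.inl rfl) k hε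
    refine ⟨N₀, fun S hS => ?_⟩
    obtain ⟨δ, hδ, h3⟩ := h (Ext S) ext_A
    refine ⟨δ, hpos S hS δ hδ, fun N hN => ?_⟩
    obtain ⟨g1, g2⟩ := h3 N hN
    constructor
    · intro g hg α Φ hΦ
      refine le_trans (le_of_eq ?_) (g1 g hg α Φ hΦ)
      congr 1
      apply Finset.sum_congr rfl
      intro n hn
      rw [ci_eq hfol hS δ hn]
      rfl
    · intro A
      have g3 := g2 A
      rw [count_eq hfol hS, count_univ] at g3
      exact g3
  · constructor
    · intro h n hn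
      induction n using Nat.strong_induction_on with
      | _ n ih =>
        rcases Nat.mod_two_eq_zero_or_one n with he | ho
        · obtain ⟨k, hk'⟩ := ih (n / 2) (by omega) (by omega)
          refine ⟨k + 1, ?_⟩
          rw [Function.iterate_succ_apply]
          have : T n = n / 2 := by unfold T; rw [if_pos he]
          rw [this]; exact hk'
        · exact (hk n ho).1 (h n ho)
    · intro h n hn
      exact (hk n hn).2 (h n (by omega))
  · intro d h hh I hI κ ψ hκ hψ hfr n hn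
    by_contra hcon
    obtain ⟨δ, hδ0, hδ⟩ := Pool.Agent.Q163.WD.Pos.dens_pos (s := 1) (Or.inl rfl)
      (S := Ext {n | ¬ KnownFate a (c n)}) (fun x => ext_inv _ x)
      ⟨(n : ℤ), (mem_ext hfol hcl' hn).2 hcon, by omega⟩
    refine count_lower (s := 1) (S := Ext {n | ¬ KnownFate a (c n)}) (δ := δ)
      (E := fun N => Box (h N) (I N)) hδ0 hκ hψ ?_ ?_
    · intro ε hε
      obtain ⟨N₀, h3⟩ := odd_box (s := 1) (Or.inl rfl) d hε
      obtain ⟨δ', hδ', h4⟩ := h3 (Ext {n | ¬ KnownFate a (c n)}) ext_A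
      have hdd : δ' = δ := tendsto_nhds_unique hδ' hδ
      rw [hdd] at h4
      exact ⟨N₀, fun N hN => (h4 N hN (h N) (hh N) (I N) (hI N)).2⟩
    · refine hfr.mono fun N hN => ?_
      rw [count_eq hfol hcl', count_univ]
      exact hN
  · intro k A κ ψ hκ hψ hfr n hn
    by_contra hcon
    obtain ⟨δ, hδ0, hδ⟩ := Pool.Agent.Q163.WD.Pos.dens_pos (s := 1) (Or.inl rfl)
      (S := Ext {n | ¬ KnownFate a (c n)}) (fun x => ext_inv _ x)
      ⟨(n : ℤ), (mem_ext hfol hcl' hn).2 hcon, by omega⟩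
    refine count_lower (s := 1) (S := Ext {n | ¬ KnownFate a (c n)}) (δ := δ)
      (E := fun N => {n | top k n ∈ A N}) hδ0 hκ hψ ?_ ?_
    · intro ε hε
      obtain ⟨N₀, h3⟩ := odd_top (s := 1) (Or.inl rfl) k hε
      obtain ⟨δ', hδ', h4⟩ := h3 (Ext {n | ¬ KnownFate a (c n)}) ext_A
      have hdd : δ' = δ := tendsto_nhds_unique hδ' hδ
      rw [hdd] at h4
      exact ⟨N₀, fun N hN => (h4 N hN).2 (A N)⟩
    · refine hfr.mono fun N hN => ?_
      rw [count_eq hfol hcl', count_univ]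
      exact hN

end Pool.Agent.Results.MP_a247fa_nt.PrimeFactors
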