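import Pool.Agent.Q163.WD.Crit
import Pool.Agent.Q163.WD.OddBdh

set_option autoImplicit false

/-!
# The critical points of Chamberland's map in residue classes to large moduli

For odd `n` let `c n` be the critical point of Chamberland's map `f` in `(n, n + 1/2)`. The sets of the
odd `n` such that the orbit of `c n` has a given fate (attracted by `A₁` or `A₂`, merging with a given
orbit, tending to infinity) satisfy a theorem of Barban-Davenport-Halberstam type in the classes of odd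
integers modulo `2 q`, for `q` up to a small multiple of `N`. If one `c n` is not of known fate, then
almost all classes of odd integers to almost all moduli `2 q` contain an `n ≤ K q` such that `c n` is not
of known fate.
-/

namespace Pool.Agent.Results.MP_a247fa_nt.ResidueClasses

open Filter Topology

/-- Chamberland's map. -/
noncomputable def f (x : ℝ) : ℝ := x + 1 / 4 - (2 * x + 1) / 4 * Real.cos (Real.pi * x)

/-- The `3x+1` map. -/
def T (n : ℕ) : ℕ := if n % 2 = 0 then n / 2 else (3 * n + 1) / 2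

/-- Points of attracting cycles contained in `(0,∞)`. -/
def AttractingPoint (y : ℝ) : Prop :=
  0 < y ∧ 0 < Function.minimalPeriod f y ∧ |deriv (f^[Function.minimalPeriod f y]) y| < 1

/-- The orbit of `x` converges to the cycle of `y`. -/
def Attracts (y x : ℝ) : Prop :=
  ∃ j : ℕ, Tendsto (fun k : ℕ => f^[k * Function.minimalPeriod f y + j] x) atTop (𝓝 y)

/-- `x` is attracted by the cycle `A₁ = {1, 2}` or by the cycle `A₂ = {a, f a}`, or its orbit ends in a
point of `[1.02, 1.05]` of period two. -/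
def KnownFate (a x : ℝ) : Prop :=
  Attracts 1 x ∨ Attracts a x ∨ ∃ K, f^[K] x ∈ Set.Icc (1.02 : ℝ) 1.05 ∧ f^[K + 2] x = f^[K] x

/-- The orbits of `x` and `y` merge: they have, from some times on, the same integral parts. -/
def Merge (x y : ℝ) : Prop := ∃ i j : ℕ, ∀ k : ℕ, ⌊f^[k + i] x⌋ = ⌊f^[k + j] y⌋

/-- The set `S` of odd positive integers is closed under merging of the orbits of the `c n`. -/
def Closed (c : ℕ → ℝ) (S : Set ℕ) : Prop :=
  ∀ n m : ℕ, n % 2 = 1 → m % 2 = 1 → Merge (c n) (c m) → (n ∈ S ↔ m ∈ S)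

/-- The number of the odd `n ≤ N` in `S`. -/
noncomputable def total (S : Set ℕ) (N : ℕ) : ℕ := {n : ℕ | n % 2 = 1 ∧ n ≤ N ∧ n ∈ S}.ncard

/-- The number of the odd `n ≤ N` in `S`, `n ≡ b` modulo `2 q`. -/
noncomputable def count (S : Set ℕ) (N q b : ℕ) : ℕ :=
  {n : ℕ | n % 2 = 1 ∧ n ≤ N ∧ n ≡ b [MOD 2 * q] ∧ n ∈ S}.ncard

/-- The pairs `(q, b)`, `Q ≤ q < 2 Q`, `b < 2 q` odd, such that no (odd) `n ≤ X`, `n ≡ b` modulo `2 q`,
is in `S`. -/
def Missed (S : Set ℕ) (X Q : ℕ) : Set (ℕ × ℕ) :=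
  {p : ℕ × ℕ | Q ≤ p.1 ∧ p.1 < 2 * Q ∧ p.2 % 2 = 1 ∧ p.2 < 2 * p.1 ∧
    ∀ n : ℕ, n ≤ X → n ≡ p.2 [MOD 2 * p.1] → n ∉ S}

/-! ### proofs -/

open Pool.Agent.Q163.WD.Crit (Fol Ext mem_ext ext_inv)
open Pool.Agent.Q163.WD.OddBdh (oddCount oddAll oddMissed bdh_odd missed_odd pairs_odd mod_odd)

theorem ext_T {S : Set ℕ} : MP_edb5be_nt.AlmostAllClasses.Invariant (Ext S) := fun x => ext_inv S x

theorem count_eq {c : ℕ → ℝ} (hc : ∀ n : ℕ, n % 2 = 1 → Fol n (c n)) {S : Set ℕ} (hS : Closed c S)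
    (N q b : ℕ) : oddCount 1 (Ext S) N q b = count S N q b := by
  unfold oddCount count
  congr 1
  ext n
  simp only [Set.mem_ofPred_eq, one_mul]
  refine and_congr_right fun h => ?_
  rw [mem_ext hc hS h]

theorem total_eq {c : ℕ → ℝ} (hc : ∀ n : ℕ, n % 2 = 1 → Fol n (c n)) {S : Set ℕ} (hS : Closed c S)
    (N : ℕ) : oddAll 1 (Ext S) N = total S N := by
  unfold oddAll total
  congr 1
  ext n
  simp only [Set.mem_ofPred_eq, one_mul]
  refine and_congr_right fun h => ?_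
  rw [mem_ext hc hS h]

theorem missed_eq {c : ℕ → ℝ} (hc : ∀ n : ℕ, n % 2 = 1 → Fol n (c n)) {S : Set ℕ} (hS : Closed c S)
    (X Q : ℕ) : oddMissed 1 (Ext S) X Q = Missed S X Q := by
  ext ⟨q, b⟩
  unfold oddMissed Missed
  simp only [Set.mem_ofPred_eq, one_mul]
  refine and_congr_right fun _ => and_congr_right fun _ => and_congr_right fun hb =>
    and_congr_right fun _ => forall_congr' fun n => forall_congr' fun _ => forall_congr' fun h => ?_
  rw [mem_ext hc hS ((mod_odd h).trans hb)]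

/-- **The theorem.** There are `a` and `c` such that: `a` is the point of `A₂` in `[1.19, 1.196]`; for
odd `n` the critical point `c n` is the only one of `f` in `(n, n + 1/2)`; the following sets of odd `n`
are closed under merging: those with `c n` of known fate, those whose `c n` has an orbit which merges with
the orbit of `c m`, those with `f^k (c n) → ∞`; and
(1) for all `ε > 0` and `N ≥ N₀`, for all sets `S` closed under merging and all `Q ≥ 1` the sum over all
`Q ≤ q < 2 Q` and all odd classes `b` modulo `2 q` of the squares of the differences between the number of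
the odd `n ≤ N` in `S`, `n ≡ b` modulo `2 q`, and the `q`-th part of the number of the odd `n ≤ N` in `S`
is at most `ε N ^ 2 + 1152 Q N`;
(2) if `S` is closed under merging and not empty, then for every `ε > 0` there is `K` such that for all
but `ε Q ^ 2` of the pairs `(q, b)`, `Q ≤ q < 2 Q`, `b < 2 q` odd, there is `n ≤ K Q` in `S`, `n ≡ b`
modulo `2 q`;
(3) all `c n` are of known fate (which is equivalent to the `3x+1` conjecture) if and only if for some
`κ > 0` and all `K` there are arbitrarily large `Q` and at least `κ Q ^ 2` pairs `(q, b)`, `Q ≤ q < 2 Q`,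
`b < 2 q` odd, such that all the (at most `K`) points `c n`, `n ≤ K Q`, `n ≡ b` modulo `2 q`, are of known
fate. -/
theorem result : ∃ (a : ℝ) (c : ℕ → ℝ),
    (a ∈ Set.Icc (1.19 : ℝ) 1.196 ∧ f (f a) = a ∧
      ∀ y, y = 1 ∨ y = 2 ∨ y = a ∨ y = f a → AttractingPoint y) ∧
    (∀ n : ℕ, n % 2 = 1 → (n : ℝ) < c n ∧ c n < n + 1 / 2 ∧ deriv f (c n) = 0 ∧
      ∀ x : ℝ, (n : ℝ) < x → x < n + 1 / 2 → deriv f x = 0 → x = c n) ∧
    (Closed c {n | KnownFate a (c n)} ∧ (∀ m : ℕ, Closed c {n | Merge (c n) (c m)}) ∧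
      Closed c {n | Tendsto (fun k : ℕ => f^[k] (c n)) atTop atTop} ∧
      ∀ S : Set ℕ, Closed c S → Closed c Sᶜ) ∧
    -- (1) the variance
    (∀ ε : ℝ, 0 < ε → ∃ N₀ : ℕ, ∀ S : Set ℕ, Closed c S → ∀ N : ℕ, N₀ ≤ N → ∀ Q : ℕ, 1 ≤ Q →
      ∑ q ∈ Finset.Ico Q (2 * Q), ∑ b ∈ (Finset.range (2 * q)).filter (fun b => b % 2 = 1),
        ((count S N q b : ℝ) - total S N / q) ^ 2 ≤ ε * N ^ 2 + 1152 * Q * N) ∧
    -- (2) small members of almost all classes
    (∀ S : Set ℕ, Closed c S → (∃ n ∈ S, n % 2 = 1) → ∀ ε : ℝ, 0 < ε → ∃ K Q₀ : ℕ,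
      ∀ Q : ℕ, Q₀ ≤ Q → ((Missed S (K * Q) Q).ncard : ℝ) ≤ ε * Q ^ 2) ∧
    -- (3) the critical points of known fate
    ((∀ n : ℕ, n % 2 = 1 → KnownFate a (c n)) ↔ ∀ n : ℕ, 1 ≤ n → ∃ k : ℕ, T^[k] n = 1) ∧
    ((∀ n : ℕ, n % 2 = 1 → KnownFate a (c n)) ↔
      ∃ κ : ℝ, 0 < κ ∧ ∀ K Q₀ : ℕ, ∃ Q : ℕ, Q₀ ≤ Q ∧
        κ * Q ^ 2 ≤ ((Missed {n | ¬ KnownFate a (c n)} (K * Q) Q).ncard : ℝ)) := by
  obtain ⟨a, c, h1, h2, hfol, hk, -⟩ := Pool.Agent.Q163.WD.Crit.exists_crit
  have hcl : Closed c {n | KnownFate a (c n)} := Pool.Agent.Q163.WD.Crit.closed_known hfol hk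
  have hsmall : ∀ S : Set ℕ, Closed c S → (∃ n ∈ S, n % 2 = 1) → ∀ ε : ℝ, 0 < ε → ∃ K Q₀ : ℕ,
      ∀ Q : ℕ, Q₀ ≤ Q → ((Missed S (K * Q) Q).ncard : ℝ) ≤ ε * Q ^ 2 := by
    rintro S hS ⟨n, hn, hodd⟩ ε hε
    obtain ⟨K, Q₀, h⟩ := missed_odd (s := 1) (ext_T (S := S)) (Or.inl rfl)
      ⟨(n : ℤ), (mem_ext hfol hS hodd).2 hn, by omega⟩ hε
    refine ⟨K, Q₀, fun Q hQ => ?_⟩
    rw [← missed_eq hfol hS]
    exact h Q hQ
  refine ⟨a, c, h1, h2, ⟨hcl, fun m => Pool.Agent.Q163.WD.Crit.closed_merge c m,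
    Pool.Agent.Q163.WD.Crit.closed_infinity c, fun S hS => Pool.Agent.Q163.WD.Crit.closed_compl hS⟩,
    ?_, hsmall, ?_, ?_⟩
  · intro ε hε
    obtain ⟨N₀, h⟩ := bdh_odd hε
    refine ⟨N₀, fun S hS N hN Q hQ => ?_⟩
    have h3 := h (Ext S) (ext_T (S := S)) 1 (Or.inl rfl) N hN Q hQ
    simp only [count_eq hfol hS, total_eq hfol hS] at h3
    exact h3
  · constructor
    · intro h n hn
      -- the odd part of `n`
      induction n using Nat.strong_induction_on with
      | _ n ih =>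
        rcases Nat.mod_two_eq_zero_or_one n with he | ho
        · obtain ⟨k, hk'⟩ := ih (n / 2) (by omega) (by omega)
          refine ⟨k + 1, ?_⟩
          rw [Function.iterate_succ_apply]
          have : T n = n / 2 := by unfold T; rw [if_pos he]
          rw [this]; exact hk'
        · exact (hk n ho).1 (h n ho)
    · intro h n hn
      exact (hk n hn).2 (h n (by omega))
  · constructor
    · intro hall
      refine ⟨1, one_pos, fun K Q₀ => ⟨Q₀, le_rfl, ?_⟩⟩
      have e1 : Missed {n | ¬ KnownFate a (c n)} (K * Q₀) Q₀ =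
          {p : ℕ × ℕ | Q₀ ≤ p.1 ∧ p.1 < 2 * Q₀ ∧ p.2 % 2 = 1 ∧ p.2 < 2 * p.1} := by
        ext ⟨q, b⟩
        constructor
        · rintro ⟨g1, g2, g3, g4, _⟩
          exact ⟨g1, g2, g3, g4⟩
        · rintro ⟨g1, g2, g3, g4⟩
          refine ⟨g1, g2, g3, g4, fun n _ hnb => ?_⟩
          exact not_not.2 (hall n ((mod_odd hnb).trans g3))
      rw [e1, one_mul]
      exact_mod_cast pairs_odd Q₀
    · rintro ⟨κ, hκ, hmiss⟩ n hn
      by_contra hcon
      obtain ⟨K, Q₀, h3⟩ := hsmall {n | ¬ KnownFate a (c n)}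
        (Pool.Agent.Q163.WD.Crit.closed_compl hcl) ⟨n, hcon, hn⟩ (κ / 2) (by positivity)
      obtain ⟨Q, hQ, h4⟩ := hmiss K (max Q₀ 1)
      have h5 := h3 Q ((le_max_left _ _).trans hQ)
      have hQ1 : 1 ≤ Q := (le_max_right _ _).trans hQ
      have hQ0 : (0 : ℝ) < Q := by exact_mod_cast hQ1
      have : 0 < κ * (Q : ℝ) ^ 2 := by positivity
      linarith

end Pool.Agent.Results.MP_a247fa_nt.ResidueClasses
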