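import Pool.Agent.Q163.WD.Crit
import Pool.Agent.Q163.WD.Pos
import Pool.Agent.Q163.WD.OddErg
import Pool.Agent.Q163.WD.OddWar

set_option autoImplicit false

/-!
# Waring's problem with a critical point of Chamberland's map of given fate

For odd `n` let `c n` be the critical point of Chamberland's map `f` in `(n, n + 1/2)`. Let `S` be the set
of the odd `x` such that the orbit of `c x` has a given fate. If `S` is not empty, then for every `k` every
large integer is a sum of an `x ∈ S` and of `r(k)` positive `k`-th powers, and the number of the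
representations is asymptotically the expected one. All `c n` are of known fate if and only if infinitely
many integers are not sums of an odd `x`, with `c x` not of known fate, and of `r` positive `k`-th powers.
-/

namespace Pool.Agent.Results.MP_a247fa_nt.WaringProblem

open Filter Topology

/-- Chamberland's map. -/
noncomputable def f (x : ℝ) : ℝ := x + 1 / 4 - (2 * x + 1) / 4 * Real.cos (Real.pi * x)

/-- The `3x+1` map. -/
def T (n : ℕ) : ℕ := if n % 2 = 0 then n / 2 else (3 * n + 1) / 2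

/-- Points of attracting cycles contained in `(0,∞)`. -/
def AttractingPoint (y : ℝ) : Prop :=
  0 < y ∧ 0 < Function.minimalPeriod f y ∧ |deriv (f^[Function.minimalPeriod f y]) y| < 1

/-- The orbit of `x` converges to the cycle of `y`. -/
def Attracts (y x : ℝ) : Prop :=
  ∃ j : ℕ, Tendsto (fun k : ℕ => f^[k * Function.minimalPeriod f y + j] x) atTop (𝓝 y)

/-- `x` is attracted by the cycle `A₁ = {1, 2}` or by the cycle `A₂ = {a, f a}`, or its orbit ends in a
point of `[1.02, 1.05]` of period two. -/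
def KnownFate (a x : ℝ) : Prop :=
  Attracts 1 x ∨ Attracts a x ∨ ∃ K, f^[K] x ∈ Set.Icc (1.02 : ℝ) 1.05 ∧ f^[K + 2] x = f^[K] x

/-- The orbits of `x` and `y` merge: they have, from some times on, the same integral parts. -/
def Merge (x y : ℝ) : Prop := ∃ i j : ℕ, ∀ k : ℕ, ⌊f^[k + i] x⌋ = ⌊f^[k + j] y⌋

/-- The set `S` of odd positive integers is closed under merging of the orbits of the `c n`. -/
def Closed (c : ℕ → ℝ) (S : Set ℕ) : Prop :=
  ∀ n m : ℕ, n % 2 = 1 → m % 2 = 1 → Merge (c n) (c m) → (n ∈ S ↔ m ∈ S)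

/-- The number of the `n` in `[1, N]` such that the `n`-th odd number `2 n - 1` is in `S`. -/
noncomputable def number (S : Set ℕ) (N : ℕ) : ℕ := {n : ℕ | 1 ≤ n ∧ n ≤ N ∧ 2 * n - 1 ∈ S}.ncard

/-- The number of the `(r + 1)`-tuples `m`, `1 ≤ m j ≤ L`, such that `n` is the sum of an `x ∈ S`, of
`(2 m 0 + e) ^ k` and of the `(2 m j) ^ k`, `j ≥ 1`; here `e = 0` or `1`, `n - e` odd, so that `x` is odd. -/
noncomputable def tuples (S : Set ℕ) (k r n L : ℕ) : ℕ :=
  {m : Fin (r + 1) → ℕ | (∀ j, 1 ≤ m j ∧ m j ≤ L) ∧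
    ∃ x ∈ S, n = x + (2 * m 0 + (n + 1) % 2) ^ k + ∑ j : Fin r, (2 * m j.succ) ^ k}.ncard

/-- `n` is a sum of an odd `x ∈ S` and of `r` positive `k`-th powers. -/
def IsSum (S : Set ℕ) (k r n : ℕ) : Prop :=
  ∃ x ∈ S, x % 2 = 1 ∧ ∃ m : Fin r → ℕ, (∀ j, 1 ≤ m j) ∧ n = x + ∑ j, m j ^ k

/-! ### proofs -/

open Pool.Agent.Q163.WD.Crit (Fol Ext mem_ext ext_inv)
open Pool.Agent.Q163.WD.OddErg (oind)

theorem ext_P {S : Set ℕ} : MP_edb5be_nt.PointwiseErgodicTheorem.Invariant (Ext S) := fun x => ext_inv S x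

theorem ext_W {S : Set ℕ} : MP_d02c56_nt.WaringProblem.Invariant (Ext S) :=
  fun x => Pool.Agent.Q163.WD.Pos.inv_C (S := Ext S) (fun x => ext_inv S x) x

theorem num_eq {c : ℕ → ℝ} (hc : ∀ n : ℕ, n % 2 = 1 → Fol n (c n)) {S : Set ℕ} (hS : Closed c S)
    (N : ℕ) : ∑ n ∈ Finset.Icc 1 N, oind 1 (Ext S) n = number S N := by
  classical
  unfold number
  have e3 : {n : ℕ | 1 ≤ n ∧ n ≤ N ∧ 2 * n - 1 ∈ S} =
      ((Finset.Icc 1 N).filter (fun n : ℕ => 2 * n - 1 ∈ S) : Finset ℕ) := by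
    ext n
    simp only [Set.mem_ofPred_eq, Finset.coe_filter, Finset.mem_Icc, and_assoc]
  rw [e3, Set.ncard_coe_finset, Finset.card_filter]
  push_cast
  apply Finset.sum_congr rfl
  intro n hn
  rw [Finset.mem_Icc] at hn
  unfold oind
  rw [show (1 : ℤ) * (2 * (n : ℤ) - 1) = ((2 * n - 1 : ℕ) : ℤ) by omega]
  have h := mem_ext hc hS (n := 2 * n - 1) (by omega)
  by_cases h1 : 2 * n - 1 ∈ S
  · rw [if_pos h1, Set.indicator_of_mem (h.2 h1)]
  · rw [if_neg h1, Set.indicator_of_notMem (fun h2 => h1 (h.1 h2))]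

theorem tuples_eq {c : ℕ → ℝ} (hc : ∀ n : ℕ, n % 2 = 1 → Fol n (c n)) {S : Set ℕ} (hS : Closed c S)
    {k : ℕ} (hk : 1 ≤ k) (r n L : ℕ) :
    Pool.Agent.Q163.WD.OddWar.tuples 1 (Ext S) k r n L = tuples S k r n L := by
  unfold Pool.Agent.Q163.WD.OddWar.tuples tuples
  congr 1
  ext m
  simp only [Set.mem_ofPred_eq, one_mul]
  refine and_congr_right fun _ => ?_
  have hodd := Pool.Agent.Q163.WD.OddWar.rest_odd hk n m
  have hrest : (n : ℤ) = Pool.Agent.Q163.WD.OddWar.rest k n m + (2 * (m 0 : ℤ) + ((n + 1) % 2 : ℕ)) ^ k +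
      ∑ j : Fin r, (2 * (m j.succ : ℤ)) ^ k := by
    unfold Pool.Agent.Q163.WD.OddWar.rest
    ring
  constructor
  · intro h
    have h0 : 0 < Pool.Agent.Q163.WD.OddWar.rest k n m := h.1
    obtain ⟨x, hx⟩ : ∃ x : ℕ, (x : ℤ) = Pool.Agent.Q163.WD.OddWar.rest k n m :=
      ⟨(Pool.Agent.Q163.WD.OddWar.rest k n m).toNat, Int.toNat_of_nonneg h0.le⟩
    refine ⟨x, ?_, ?_⟩
    · rw [← hx] at h
      exact (mem_ext hc hS (by omega)).1 h
    · rw [← hx] at hrest
      exact_mod_cast hrest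
  · rintro ⟨x, hx, he⟩
    have he' : (n : ℤ) = x + (2 * (m 0 : ℤ) + ((n + 1) % 2 : ℕ)) ^ k +
        ∑ j : Fin r, (2 * (m j.succ : ℤ)) ^ k := by exact_mod_cast he
    have hx' : Pool.Agent.Q163.WD.OddWar.rest k n m = x := by linarith
    rw [hx'] at hodd ⊢
    exact (mem_ext hc hS (by omega)).2 hx

/-- **The theorem.** There are `a` and `c` such that: `a` is the point of `A₂` in `[1.19, 1.196]`; for
odd `n` the critical point `c n` is the only one of `f` in `(n, n + 1/2)`; the following sets of odd `n`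
are closed under merging: those with `c n` of known fate, those whose `c n` has an orbit which merges with
the orbit of `c m`, those with `f^k (c n) → ∞`; and
(1) for every `k` and `r ≥ r₀(k)`, all `B` and `ε > 0`, for `n ≥ n₀`, for ALL sets `S` closed under
merging, of density `δ` among the odd integers (it exists, and is positive if `S` contains an odd
integer), and for all `L` with `(r + 1) (2 L + 1) ^ k < n ≤ B L ^ k`, the number of the representations
of `n` as a sum of an odd `x ∈ S` and of `k`-th powers of `2 m 0 + e`, `2 m 1`, ..., `2 m r`,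
`1 ≤ m j ≤ L`, where `e = 0` or `1`, is `δ L ^ (r + 1)` up to `ε L ^ (r + 1)`;
(2) for every `k` there is `r₀` such that for `r ≥ r₀`: if `S` is closed under merging and contains an
odd integer, every large integer is a sum of an odd `x ∈ S` and of `r` positive `k`-th powers;
(3) all `c n` are of known fate if and only if the `3x+1` conjecture is true, and if and only if for some
`k`, for infinitely many `r`, there are infinitely many `n` which are not sums of an odd `x` such that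
`c x` is not of known fate, and of `r` positive `k`-th powers. -/
theorem result : ∃ (a : ℝ) (c : ℕ → ℝ),
    (a ∈ Set.Icc (1.19 : ℝ) 1.196 ∧ f (f a) = a ∧
      ∀ y, y = 1 ∨ y = 2 ∨ y = a ∨ y = f a → AttractingPoint y) ∧
    (∀ n : ℕ, n % 2 = 1 → (n : ℝ) < c n ∧ c n < n + 1 / 2 ∧ deriv f (c n) = 0 ∧
      ∀ x : ℝ, (n : ℝ) < x → x < n + 1 / 2 → deriv f x = 0 → x = c n) ∧
    (Closed c {n | KnownFate a (c n)} ∧ (∀ m : ℕ, Closed c {n | Merge (c n) (c m)}) ∧
      Closed c {n | Tendsto (fun k : ℕ => f^[k] (c n)) atTop atTop} ∧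
      ∀ S : Set ℕ, Closed c S → Closed c Sᶜ) ∧
    -- (1) the number of the representations
    (∀ k : ℕ, 1 ≤ k → ∃ r₀ : ℕ, ∀ r : ℕ, r₀ ≤ r → ∀ (B : ℕ) (ε : ℝ), 0 < ε → ∃ n₀ : ℕ,
      ∀ S : Set ℕ, Closed c S → ∃ δ : ℝ,
        Tendsto (fun N : ℕ => (number S N : ℝ) / N) atTop (𝓝 δ) ∧ ((∃ n ∈ S, n % 2 = 1) → 0 < δ) ∧
        ∀ n : ℕ, n₀ ≤ n → ∀ L : ℕ, (r + 1) * (2 * L + 1) ^ k < n → n ≤ B * L ^ k →
          |(tuples S k r n L : ℝ) - δ * (L : ℝ) ^ (r + 1)| ≤ ε * (L : ℝ) ^ (r + 1)) ∧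
    -- (2) every large integer is a sum
    (∀ k : ℕ, 1 ≤ k → ∃ r₀ : ℕ, ∀ r : ℕ, r₀ ≤ r → ∀ S : Set ℕ, Closed c S → (∃ n ∈ S, n % 2 = 1) →
      ∃ n₀ : ℕ, ∀ n : ℕ, n₀ ≤ n → IsSum S k r n) ∧
    -- (3) the critical points of known fate
    ((∀ n : ℕ, n % 2 = 1 → KnownFate a (c n)) ↔ ∀ n : ℕ, 1 ≤ n → ∃ k : ℕ, T^[k] n = 1) ∧
    ((∀ n : ℕ, n % 2 = 1 → KnownFate a (c n)) ↔
      ∃ k : ℕ, 1 ≤ k ∧ ∃ᶠ r : ℕ in atTop, ∃ᶠ n : ℕ in atTop,
        ¬ IsSum {x | ¬ KnownFate a (c x)} k r n) := by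
  obtain ⟨a, c, h1, h2, hfol, hk, -⟩ := Pool.Agent.Q163.WD.Crit.exists_crit
  have hcl : Closed c {n | KnownFate a (c n)} := Pool.Agent.Q163.WD.Crit.closed_known hfol hk
  have hne : ∀ S : Set ℕ, Closed c S → (∃ n ∈ S, n % 2 = 1) → ∃ y ∈ Ext S, 0 < 1 * y := by
    rintro S hS ⟨n, hn, hodd⟩
    exact ⟨(n : ℤ), (mem_ext hfol hS hodd).2 hn, by omega⟩
  have hnum : ∀ S : Set ℕ, Closed c S → ∀ δ : ℝ,
      MP_edb5be_nt.PointwiseErgodicTheorem.HasDensity 1 (Ext S) δ →
      Tendsto (fun N : ℕ => (number S N : ℝ) / N) atTop (𝓝 δ) := by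
    intro S hS δ hδ
    have h := Pool.Agent.Q163.WD.OddErg.odd_number (Or.inl rfl) ext_P hδ
    refine h.congr fun N => ?_
    rw [num_eq hfol hS]
  have hsum : ∀ k : ℕ, 1 ≤ k → ∃ r₀ : ℕ, ∀ r : ℕ, r₀ ≤ r → ∀ S : Set ℕ, Closed c S →
      (∃ n ∈ S, n % 2 = 1) → ∃ n₀ : ℕ, ∀ n : ℕ, n₀ ≤ n → IsSum S k r n := by
    intro k hk1
    obtain ⟨r₀, h⟩ := Pool.Agent.Q163.WD.OddWar.odd_sums hk1
    refine ⟨r₀ + 1, fun r hr S hS hn => ?_⟩
    obtain ⟨δ, hδ0, hδ⟩ := Pool.Agent.Q163.WD.Pos.dens_pos (s := 1) (Or.inl rfl) (S := Ext S)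
      (fun x => ext_inv S x) (hne S hS hn)
    obtain ⟨n₀, hn₀⟩ := h (r - 1) (by omega) 1 (Or.inl rfl) (Ext S) ext_W δ hδ hδ0
    refine ⟨n₀, fun n hn' => ?_⟩
    obtain ⟨x, hx1, hx2, m, hm1, hm2⟩ := hn₀ n hn'
    rw [one_mul] at hx2
    have hr1 : r - 1 + 1 = r := by omega
    refine ⟨x, (mem_ext hfol hS hx1).1 hx2, hx1, fun j => m (Fin.cast hr1.symm j), fun j => hm1 _, ?_⟩
    rw [hm2]
    congr 1
    exact (Equiv.sum_comp (finCongr hr1.symm) (fun j => m j ^ k)).symm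
  refine ⟨a, c, h1, h2, ⟨hcl, fun m => Pool.Agent.Q163.WD.Crit.closed_merge c m,
    Pool.Agent.Q163.WD.Crit.closed_infinity c, fun S hS => Pool.Agent.Q163.WD.Crit.closed_compl hS⟩,
    ?_, hsum, ?_, ?_⟩
  · intro k hk1
    obtain ⟨r₀, h⟩ := Pool.Agent.Q163.WD.OddWar.odd_waring hk1
    refine ⟨r₀, fun r hr B ε hε => ?_⟩
    obtain ⟨n₀, hn₀⟩ := h r hr 1 (Or.inl rfl) B ε hε
    refine ⟨n₀, fun S hS => ?_⟩
    obtain ⟨δ, hδ, h3⟩ := hn₀ (Ext S) ext_W
    refine ⟨δ, hnum S hS δ hδ, fun hn => ?_, fun n hn L hL1 hL2 => ?_⟩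
    · obtain ⟨δ', hδ0, hδ'⟩ := Pool.Agent.Q163.WD.Pos.dens_pos (s := 1) (Or.inl rfl) (S := Ext S)
        (fun x => ext_inv S x) (hne S hS hn)
      rwa [tendsto_nhds_unique hδ hδ']
    · rw [← tuples_eq hfol hS hk1]
      exact h3 n hn L hL1 hL2
  · constructor
    · intro h n hn
      induction n using Nat.strong_induction_on with
      | _ n ih =>
        rcases Nat.mod_two_eq_zero_or_one n with he | ho
        · obtain ⟨k, hk'⟩ := ih (n / 2) (by omega) (by omega)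
          refine ⟨k + 1, ?_⟩
          rw [Function.iterate_succ_apply]
          have : T n = n / 2 := by unfold T; rw [if_pos he]
          rw [this]; exact hk'
        · exact (hk n ho).1 (h n ho)
    · intro h n hn
      exact (hk n hn).2 (h n (by omega))
  · constructor
    · intro hall
      refine ⟨1, le_rfl, Filter.Frequently.of_forall fun r => Filter.Frequently.of_forall fun n => ?_⟩
      rintro ⟨x, hx, hx1, -⟩
      exact hx (hall x hx1)
    · rintro ⟨k, hk1, hfr⟩ n hn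
      by_contra hcon
      obtain ⟨r₀, h⟩ := hsum k hk1
      obtain ⟨r, hr, hr2⟩ := (hfr.and_eventually (eventually_ge_atTop r₀)).exists
      obtain ⟨n₀, hn₀⟩ := h r hr2 {x | ¬ KnownFate a (c x)}
        (Pool.Agent.Q163.WD.Crit.closed_compl hcl) ⟨n, hcon, hn⟩
      obtain ⟨n', hn1, hn2⟩ := (hr.and_eventually (eventually_ge_atTop n₀)).exists
      exact hn1 (hn₀ n' hn2)

end Pool.Agent.Results.MP_a247fa_nt.WaringProblem
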